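import Mathlib

set_option autoImplicit false

/-!
# Squad OPG (MP_5f6ee5_nt): definitions

The odd integers `n` with `(M-1)² < n < (M+1)²` and `f n = e`, changes of `f` and cuts. Everything
is over `ℕ`; `M` is even (`M = 2k`).
-/

namespace Pool.Agent.OPG

/-- `f` is completely multiplicative on the odd numbers, with values `±1`. -/
def OM (f : ℕ → ℤˣ) : Prop := ∀ a b : ℕ, Odd a → Odd b → f (a * b) = f a * f b

/-- The odd `n` strictly between `(M-1)²` and `(M+1)²` with `f n = e`. -/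
def NS (f : ℕ → ℤˣ) (e : ℤˣ) (M : ℕ) : Finset ℕ :=
  (Finset.Ioo ((M - 1) ^ 2) ((M + 1) ^ 2)).filter (fun n => Odd n ∧ f n = e)

/-- The sum of the numbers of divisors of the elements of `NS f e M`. -/
def DS (f : ℕ → ℤˣ) (e : ℤˣ) (M : ℕ) : ℕ := ∑ n ∈ NS f e M, n.divisors.card

/-- The changes of `f` in `[a, b]`: the odd `u` with `f u ≠ f (u + 2)`. -/
def CH (f : ℕ → ℤˣ) (a b : ℕ) : Finset ℕ :=
  (Finset.Icc a b).filter (fun u => Odd u ∧ f u ≠ f (u + 2))

/-- `u` is a cut: no odd `v` has both `u v` and `(u + 2) v` strictly between `(M-1)²` and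
`(M+1)²`. -/
def Cut (M u : ℕ) : Prop :=
  ∀ v : ℕ, Odd v → (M - 1) ^ 2 < u * v → (M + 1) ^ 2 ≤ (u + 2) * v

open Classical in
/-- The odd cuts in `[a, b]`. -/
noncomputable def CU (M a b : ℕ) : Finset ℕ := (Finset.Icc a b).filter (fun u => Odd u ∧ Cut M u)

/-- `u` in the window `[M+A, M+2A]` with a number `t` such that `e = α² - t u` (with
`α = u - (M - 1)`) satisfies `0 ≤ e ≤ 2 t`. Every cut has such a `t` (row CT1). -/
def TT (M A u t : ℤ) : Prop :=
  M + A ≤ u ∧ u ≤ M + 2 * A ∧ t * u ≤ (u - M + 1) ^ 2 ∧ (u - M + 1) ^ 2 ≤ t * u + 2 * t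

/-- The logarithm of a product of ratios. -/
noncomputable def lsum (L : List (ℕ × ℕ)) : ℝ :=
  (L.map (fun x => Real.log x.1 - Real.log x.2)).sum

/-- Iterated differences of the logarithm with step `2`. -/
noncomputable def FD : ℕ → ℝ → ℝ
  | 0, y => Real.log y
  | (l + 1), y => FD l (y + 2) - FD l y

/-- The sign of a list of ratios. -/
def sgnp (f : ℕ → ℤˣ) (L : List (ℕ × ℕ)) : ℤˣ := (L.map (fun x => f x.1 * f x.2)).prod

end Pool.Agent.OPG
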