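import Pool.Agent.OPG.Defs

set_option autoImplicit false

/-!
# Squad OPG (MP_5f6ee5_nt): statements of the rows, with proofs

Goal: for every `δ > 0` there is `c > 0` with at least `c k^(1-δ)` odd `n` in
`((2k-1)², (2k+1)²)`, `Ω(n)` odd, for every `k ≥ 1`; the same for every completely multiplicative
`f` on the odd numbers with `f n₁ = -1` (`n₁` odd, fixed), both signs, large `k`. `M = 2k`, `s = P³`, `S = s² = P⁶`,
`A = M / S`, window `[M+A, M+2A]`. Paper proof: note 3789.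
-/

namespace Pool.Agent.OPG

open Finset

/-- ROW CHG. Every change is a cut or gives an element of `NS f e M`.
PROOF. Let `u` be a change and not a cut: there is an odd `v` with `(M-1)² < u v` and
`(u+2) v < (M+1)²`. Both `u v` and `(u+2) v` are odd, strictly between `(M-1)²` and `(M+1)²`, and
`f (u v) = f u * f v ≠ f (u+2) * f v = f ((u+2) v)`; two different elements of `ℤˣ` are `e` and
`-e`, so one of the two numbers, `n`, is in `NS f e M`; so `u` is a divisor of `n` or `u + 2` is.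
Hence the changes that are not cuts lie in the union over `n ∈ NS f e M` of `n.divisors` and
`n.divisors.image (· - 2)`, of cardinality at most `2 * DS f e M`. -/
def ChgStmt : Prop := ∀ (f : ℕ → ℤˣ) (e : ℤˣ) (M a b : ℕ), OM f →
  (CH f a b).card ≤ (CU M a b).card + 2 * DS f e M

/-- ROW CT1. A cut has a `t` as in `TT`.
PROOF. Let `w` be the largest odd INTEGER with `u w ≤ (M-1)²` (`w = q` or `q - 1`, `q` the integer
quotient; `w = -1` may occur). Then `v = w + 2 ≥ 1` is odd with `u v > (M-1)²`, so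
`(M+1)² ≤ (u+2)(w+2)`. Put `t = u + w - 2 (M-1)`. Then
`(M-1)² - u w = (u - M + 1)² - t u` (ring) is `≥ 0`, and
`(u+2)(w+2) = (M+1)² - ((u-M+1)² - t u) + 2 t` (ring), so it is `≤ 2 t`. -/
def Ct1Stmt : Prop := ∀ (M u : ℕ), Even M → 2 ≤ M → Odd u → M ≤ u → Cut M u →
  ∃ t : ℤ, t * u ≤ ((u : ℤ) - M + 1) ^ 2 ∧ ((u : ℤ) - M + 1) ^ 2 ≤ t * u + 2 * t

/-- ROW CT2. Algebra of two cuts and of two pairs of cuts, `A S ≤ M < (A+1) S`.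
PROOF. Put `α = u - M + 1 ∈ [A+1, 2A+1]`, `e = α² - t u`, `0 ≤ e ≤ 2t`. (1) `2t ≥ 0`, and
`t A S ≤ t M ≤ t u ≤ (2A+1)² ≤ 5 A²` gives `t S ≤ 5 A` (so `t ≤ A/20` and `e ≤ A/10`).
(2) For `(u,t)`, `(u+d, t+h)`, `d ≥ 2`: with `e₁, e₂`,
`h u = d (2α + d - (t+h)) - (e₂ - e₁)` (ring; `α₂ = α + d`). As `t + h ≤ A/20`, `|e₂-e₁| ≤ A/10`:
`h u ≥ d (2A - A/20) - A/10 ≥ 1.9 d A` and `u ≤ M + 2A ≤ 1.03 A S`, so `h S ≥ d`; and
`h u ≤ d (4A + 2) + A/10 ≤ 4.2 d A`, `u ≥ A S`, so `h S ≤ 5 d`.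
(3) For two pairs `(u,t),(u+d,t+h)` and `(v,r),(v+d,r+h)`, `v < u`, `v ≡ u mod 2`: subtract the two
identities: `(2d - h)(u - v) - d (t - r) = (e₂ - e₁) - (e₂' - e₁') ≤ 2 * (10 A / S)`. By (2)
`h ≤ 5 d / S ≤ d/20` and `t - r ≤ 5 (u - v)/S ≤ (u-v)/20`, so `1.9 d (u - v) ≤ 20 A / S`. -/
def Ct2Stmt : Prop := ∀ (M A S : ℤ), 100 ≤ A → 100 ≤ S → A * S ≤ M → M < (A + 1) * S →
  (∀ u t, TT M A u t → 0 ≤ t ∧ t * S ≤ 5 * A) ∧
  (∀ u t d h, 2 ≤ d → TT M A u t → TT M A (u + d) (t + h) → d ≤ h * S ∧ h * S ≤ 5 * d) ∧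
  (∀ u t v r d h, 2 ≤ d → v + 2 ≤ u → TT M A u t → TT M A (u + d) (t + h) → TT M A v r →
    TT M A (v + d) (r + h) → (u - v) * d * S ≤ 11 * A)

/-- ROW GAP. A set of integers in `[0, R]` with few pairs of each small distance is small.
PROOF. Blocks: `t / L ∈ {0, …, R / L}`. For `t ∈ T` let `m(t)` be the least element of `T` in the
block of `t`. The `t` with `m(t) = t` are at most `R / L + 1` many (one per block). Every other `t`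
is `m + h` with `m = m(t) ∈ T`, `m + h = t ∈ T`, `1 ≤ h < L`; `t ↦ (h, m)` is injective, so there
are at most `∑_(1 ≤ h < L) K ≤ L K` of them. -/
def GapStmt : Prop := ∀ (T : Finset ℕ) (R L : ℕ) (K : ℝ), 1 ≤ L → 0 ≤ K → (∀ t ∈ T, t ≤ R) →
  (∀ h, 1 ≤ h → h < L → ((T.filter (fun t => t + h ∈ T)).card : ℝ) ≤ K) →
  (T.card : ℝ) ≤ R / L + 1 + L * K

/-- ROW CT3 (uses CT1, CT2, GAP). Number of cuts in the window, `S = s²`.
PROOF. Let `U` be the set of cuts in `[M+A, M+2A]`; choose `τ(u)` by CT1 for `u ∈ U` (so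
`TT M A u (τ u)`); by CT2 (1) `0 ≤ τ u`, `τ u * s² ≤ 5 A`, by (2) `τ` is strictly increasing on `U`
(two elements differ by at least `2`: both odd). Let `T` be the image (as natural numbers),
`#T = #U`, `T ⊂ [0, 5A/s²]`. For `1 ≤ h < s` the number of `t ∈ T` with `t + h ∈ T` is at most
`K = s³ + 275 A / s⁴`: for such `t = τ u`, `t + h = τ u'`, put `d = u' - u ≥ 2`; by (2)
`d ≤ h s²` and `h s² ≤ 5 d`; for each `d` in `[1, h s²]`, `5 d ≥ h s²`, let `v` be the least such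
`u` for this `d`: for the others (3) gives `(u - v) d s² ≤ 11 A`, and (2) `(τ u - τ v) s² ≤
5 (u - v)`, so `(τ u - τ v) s⁴ d ≤ 55 A`, `(τ u - τ v) ≤ 275 A / (s⁶ h)`: at most
`1 + 275 A / (s⁶ h)` values of `t`. Sum over at most `h s²` values of `d`:
`h s² + 275 A / s⁴ ≤ K`. Now GAP with `L = s`, `R = 5A/s²`:
`#U ≤ 5A/s³ + 1 + s (s³ + 275 A/s⁴) = 1 + s⁴ + 280 A/s³`. -/
def Ct3Stmt : Prop := ∀ (M A s : ℕ), Even M → 100 ≤ A → 10 ≤ s → A * s ^ 2 ≤ M →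
  M < (A + 1) * s ^ 2 →
  ((CU M (M + A) (M + 2 * A)).card : ℝ) ≤ 1 + (s : ℝ) ^ 4 + 280 * A / (s : ℝ) ^ 3

/-- ROW FDL. Size of the iterated differences of the logarithm.
PROOF. Let `g₀ = log`, `g_m y = (-1)^(m-1) (m-1)! / y^m` for `m ≥ 1`, so `g_m' = g_(m+1)` on
`y > 0`. Let `D g y = g (y+2) - g y`. Claim: for all `l m`, `y > 0` there is `ξ ∈ [y, y+2l]` with
`D^l g_m y = 2^l g_(m+l) ξ`. Induction on `l` for all `m`: `φ = D^l g_m` has derivative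
`D^l g_(m+1)` (D is linear), so by the mean value theorem
`D^(l+1) g_m y = φ (y+2) - φ y = 2 φ' η = 2 D^l g_(m+1) η`, `η ∈ (y, y+2)`, and the induction
hypothesis at `η`. For `m = 0`: `|FD l y| = 2^l (l-1)! / ξ^l` with `y ≤ ξ ≤ y + 2l ≤ 2y`. -/
def FdlStmt : Prop := ∀ (l : ℕ) (y : ℝ), 1 ≤ l → 2 * (l : ℝ) ≤ y →
  ((l - 1).factorial : ℝ) / y ^ l ≤ |FD l y| ∧
  |FD l y| ≤ 2 ^ l * ((l - 1).factorial : ℝ) / y ^ l

/-- ROW LST. The iterated difference is the logarithm of a product of ratios.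
PROOF. Induction on `l`: for `l = 1` the list `[(P+2, P)]`; for `l + 1` the list of `l` at `P + 2`
followed by the list of `l` at `P` with all pairs swapped (`lsum` of the swapped list is minus
`lsum`). -/
def LstStmt : Prop := ∀ (l P : ℕ), 1 ≤ l → Odd P →
  ∃ L : List (ℕ × ℕ), L.length = 2 ^ (l - 1) ∧
    (∀ x ∈ L, Odd x.1 ∧ Odd x.2 ∧ P ≤ x.1 ∧ x.1 ≤ P + 2 * l ∧ P ≤ x.2 ∧ x.2 ≤ P + 2 * l) ∧
    lsum L = FD l P

/-- ROW GRD (uses FDL, LST). Greedy digits: an approximation of a real `θ ≥ 0` (later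
`θ = log n₁ / 2`) by the logarithm of few ratios.
PROOF. Let `Λ_l` be the list of LST, swapped if `FD l P < 0`, so `ρ_l = lsum Λ_l = |FD l P| > 0`,
`(l-1)! P^-l ≤ ρ_l ≤ 2^l (l-1)! P^-l` by FDL (`P ≥ 2R`). Claim by induction on `l ≤ R`: there is a
list `L_l` of length `≤ (θ + 4^l) P` with `0 ≤ θ - lsum L_l < ρ_l` (for `l = 0`: `L_0 = []`, only
`0 ≤ θ - 0`) and all partial sums in `[-η, θ + η]`, `η = 2^R · 2R / P`. Step: append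
`n = ⌊r / ρ_(l+1)⌋` copies of `Λ_(l+1)`, `r` the remainder: `n ≤ ρ_l / ρ_(l+1) ≤ 2^l P` (for
`l = 0`: `n ≤ θ P` as `ρ_1 ≥ 1/P`), and the added length is `n 2^l`. Partial sums: at the ends
of the copies they lie in `[0, θ]`; inside one copy every term has `|log p - log q| ≤
log ((P + 2R)/P) ≤ 2R/P`, at most `2^R` terms. For `P` large `η ≤ log 2`. At the end
`|lsum L_R - θ| ≤ ρ_R ≤ 2^R R! / P^R`. -/
def GrdStmt : Prop := ∀ (R : ℕ) (θ : ℝ), 1 ≤ R → 0 ≤ θ → ∃ C : ℕ, 1 ≤ C ∧ ∀ P : ℕ, C ≤ P →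
  Odd P → ∃ L : List (ℕ × ℕ), L.length ≤ C * P ∧
    (∀ x ∈ L, Odd x.1 ∧ Odd x.2 ∧ P ≤ x.1 ∧ x.1 ≤ 2 * P ∧ P ≤ x.2 ∧ x.2 ≤ 2 * P) ∧
    (∀ n, |lsum (L.take n)| ≤ θ + Real.log 2) ∧
    |lsum L - θ| ≤ C / (P : ℝ) ^ R

/-- ROW PTL (uses GRD). The path: the list of GRD with `θ = log n₁ / 2` twice, then the ratio
`1 / n₁`, as functions. `c i` is the product of the first `i` ratios `p j / q j`.
PROOF. `Λ = L ++ L ++ [(1, n₁)]`, `J = 2 * L.length + 1 ≤ 3 C P`, `p i, q i` the entries (`1` for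
`i ≥ J`), `c i = exp (lsum (Λ.take i))`, `B = 4 n₁`: the partial sums of `Λ` are at most
`2θ + 2 log 2 = log (4 n₁)` in absolute value (first copy `|partial| ≤ θ + log 2`, second copy
`lsum L + partial`; the last one is `2 lsum L - log n₁`, of absolute value at most `2 C / P^R`,
`≤ log 4` for `P` large), so `1/B ≤ c i ≤ B`. `n₁ ≤ 2 P` for `P ≥ C`, enlarge `C`. The sign: every
ratio of `L` occurs twice, so the product of all `f (p i) * f (q i)` is `f 1 * f n₁ = -1`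
(`f 1 = f 1 * f 1`). `|c J - 1| ≤ 2 |2 lsum L - log n₁| ≤ 4 C / P^R` (`|exp x - 1| ≤ 2 |x|` for
`|x| ≤ 1`; `P` large). -/
def PtlStmt : Prop := ∀ (R n1 : ℕ), 1 ≤ R → Odd n1 → ∃ C B : ℕ, 1 ≤ C ∧ 1 ≤ B ∧
  ∀ P : ℕ, C ≤ P → Odd P →
  ∃ (J : ℕ) (p q : ℕ → ℕ) (c : ℕ → ℝ), J ≤ C * P ∧
    (∀ i < J, Odd (p i) ∧ Odd (q i) ∧ p i ≤ 2 * P ∧ q i ≤ 2 * P) ∧
    c 0 = 1 ∧ (∀ i < J, c (i + 1) * q i = c i * p i) ∧
    (∀ i ≤ J, 1 / (B : ℝ) ≤ c i ∧ c i ≤ B) ∧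
    |c J - 1| ≤ C / (P : ℝ) ^ R ∧
    (∀ f : ℕ → ℤˣ, OM f → f n1 = -1 → ∏ i ∈ range J, (f (p i) * f (q i)) = -1)

/-- ROW TEL. Telescoping along the path. `Y i = c i * H / g i * Y₀`, `f` is constant `= σ i` on
the odd numbers within `4 Q` of `Y i`.
PROOF. Let `b' = p i * g i`, `b = q i * g (i+1)`, both odd, `≤ Q`. `Y (i+1) / Y i =
(c (i+1) / c i) (g i / g (i+1)) = b' / b`. Let `a` be odd with `|a - Y i / b| ≤ 1`
(`a = 2 ⌊x/2⌋ + 1` for `x = Y i / b ≥ 0`). Then `|a b - Y i| ≤ b ≤ Q` and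
`|a b' - Y (i+1)| ≤ b' ≤ Q`, so `σ i = f (a b) = f a f b`, `σ (i+1) = f (a b') = f a f b'`, hence
`σ i * σ (i+1) = f (p i) f (q i) f (g i) f (g (i+1))`. Multiply over `i < J`: the left side is
`σ 0 * σ J`, the factors `f (g i)` cancel up to `f (g 0) * f (g J) = 1`. Since
`|Y J - Y 0| ≤ Q` some odd number is within `4 Q` of both (within `1` of `Y 0`), so `σ J = σ 0`. -/
def TelStmt : Prop := ∀ (f : ℕ → ℤˣ) (J H : ℕ) (p q g : ℕ → ℕ) (c : ℕ → ℝ) (Q Y0 : ℝ)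
  (σ : ℕ → ℤˣ), OM f → 1 ≤ Q → 0 < Y0 →
  (∀ i < J, Odd (p i) ∧ Odd (q i)) → (∀ i ≤ J, Odd (g i)) → g 0 = H → g J = H →
  c 0 = 1 → (∀ i ≤ J, 0 < c i) → (∀ i < J, c (i + 1) * q i = c i * p i) →
  (∀ i < J, (p i : ℝ) * g i ≤ Q ∧ (q i : ℝ) * g (i + 1) ≤ Q) →
  |c J * H / g J * Y0 - Y0| ≤ Q →
  (∀ i ≤ J, ∀ n : ℕ, Odd n → |(n : ℝ) - c i * H / g i * Y0| ≤ 4 * Q → f n = σ i) →
  ∏ i ∈ range J, (f (p i) * f (q i)) = 1

/-- ROW GDB. No change near `Y`: `f` is constant on the odd numbers near `Y`.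
PROOF. Two odd numbers `n < n'` within `4 Q` of `Y`: all odd `u` in between, `n ≤ u < n'`, satisfy
`|u - Y| ≤ 4Q` and lie in `[a, b]`, so they are not changes: `f n = f n'`. -/
def GdbStmt : Prop := ∀ (f : ℕ → ℤˣ) (a b : ℕ) (Q Y : ℝ), (a : ℝ) ≤ Y - 4 * Q →
  Y + 4 * Q ≤ b → (∀ u ∈ CH f a b, 4 * Q < |(u : ℝ) - Y|) →
  ∃ σ : ℤˣ, ∀ n : ℕ, Odd n → |(n : ℝ) - Y| ≤ 4 * Q → f n = σ

/-- ROW BAD. Union bound.
PROOF. For given `i` and `u` the condition gives `|Y - u / C i| ≤ 4 Q / C i ≤ 8 Q`, so at most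
`16 Q + 1 ≤ 17 Q` integers `Y`. There are `b - a + 1` (or `0`, if `b < a`) integers in `[a, b]`. -/
def BadStmt : Prop := ∀ (J a b : ℕ) (C : ℕ → ℝ) (U : Finset ℕ) (Q : ℝ), 1 ≤ Q →
  (∀ i ≤ J, 1 / 2 ≤ C i) →
  (∀ Y ∈ Icc a b, ∃ i ≤ J, ∃ u ∈ U, |(u : ℝ) - C i * Y| ≤ 4 * Q) →
  (b : ℝ) - a ≤ (J + 1) * U.card * (17 * Q)

/-- ROW PAT (uses PTL, TEL, GDB, BAD). The number of changes in the window.
PROOF. `B` from PTL, `H = (14 B + 1) P⁶` (odd), `Q = 3 B P H = 3 B (14 B + 1) P⁷`; `P` large in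
terms of `R, n₁`; `A ≥ P²² - 1`. Take `J p q c` from PTL. `g i` = an odd number with
`|g i - c i H| ≤ 1` (`2 ⌊x/2⌋ + 1`), but `g 0 = g J = H` (allowed at `J`: `|c J - 1| H ≤ 1`).
`c i H ≥ H/B ≥ 14 P⁶`, so `g i ≥ 13 P⁶` and `C i = c i H / g i` satisfies
`|C i - 1| ≤ 1 / (13 P⁶)`; `p i g i ≤ 2 P (B H + 1) ≤ Q`. Window for `Y₀`: the integers in
`[M + A + A/4, M + 2A - A/4]` (`b - a ≥ A/2`). `|C i Y₀ - Y₀| ≤ (M + 2A)/(13 P⁶) ≤ A/12` and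
`4 Q ≤ A/12`, so `[C i Y₀ - 4Q, C i Y₀ + 4Q]` is in `[M + A, M + 2A]` (`A/4` in naturals is
`≥ A/6`). `|C J Y₀ - Y₀| = |c J - 1| Y₀ ≤ 2 C 3^R ≤ Q`. If for some `Y₀` no change is
within `4 Q` of any `C i Y₀`, GDB gives the `σ i`, TEL gives product `1`, PTL gives `-1`,
contradiction. So BAD applies: `A/2 ≤ (J + 1) #CH (17 Q)`, `J + 1 ≤ 2 C P`. -/
def PatStmt : Prop := ∀ (R n1 : ℕ), 28 ≤ R → Odd n1 → ∃ C : ℕ, 1 ≤ C ∧
  ∀ (P M A : ℕ) (f : ℕ → ℤˣ), C ≤ P →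
  Odd P → P ^ R ≤ M → M ≤ 3 ^ R * P ^ R → A * P ^ 6 ≤ M → M < (A + 1) * P ^ 6 →
  OM f → f n1 = -1 → A ≤ C * P ^ 8 * (CH f (M + A) (M + 2 * A)).card

/-- ROW MAI (uses CHG, CT3, PAT). The main inequality.
PROOF. `s = P³`, `A = M / P⁶`. PAT, CHG and CT3:
`A ≤ C P⁸ (1 + P¹² + 280 A/P⁹ + 2 DS)`. For `P ≥ 1200 C` the term `280 C A/P` is `≤ A/4`, and
`C P⁸ (1 + P¹²) ≤ 2 C P²⁰ ≤ A/4` since `A ≥ P²² - 1`. So `A ≤ 4 C P⁸ DS` and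
`M < (A+1) P⁶ ≤ 2 A P⁶ ≤ 8 C P¹⁴ DS`. -/
def MaiStmt : Prop := ∀ (R n1 : ℕ), 28 ≤ R → Odd n1 → ∃ C : ℕ, 1 ≤ C ∧
  ∀ (P M : ℕ) (f : ℕ → ℤˣ) (e : ℤˣ),
  C ≤ P → Odd P → Even M → P ^ R ≤ M → M ≤ 3 ^ R * P ^ R → OM f → f n1 = -1 →
  M ≤ C * P ^ 14 * DS f e M

/-- ROW FIN (uses MAI; the divisor bound is `Pool.Agent.Helper69_Weyl.exists_card_divisors_le`).
PROOF. Choose `R ≥ 28` with `14 / R ≤ δ / 4` and the divisor bound `d(n) ≤ D n^(δ/8)`. For large `M`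
let `P` be the largest odd number with `P^R ≤ M`; then `M < (P+2)^R ≤ (3P)^R`, and `P ≥ C`. As
`n < (M+1)² ≤ 4 M²`, `DS f e M ≤ #NS · D (4M²)^(δ/8)`, and `P¹⁴ ≤ M^(14/R) ≤ M^(δ/4)`, so
`M ≤ C D 4^(δ/8) M^(δ/2) #NS` and `#NS ≥ M^(1-δ)` for large `M`. -/
def FinStmt : Prop := ∀ (δ : ℝ) (n1 : ℕ), 0 < δ → Odd n1 → ∃ M0 : ℕ,
  ∀ (M : ℕ) (f : ℕ → ℤˣ) (e : ℤˣ), M0 ≤ M →
  Even M → OM f → f n1 = -1 → (M : ℝ) ^ (1 - δ) ≤ ((NS f e M).card : ℝ)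

/-- ROW RES (uses FIN; and `Pool.Agent.OddParity.claim_all`). The final theorem. First part:
`Ω(n)` odd, every `k ≥ 1`. Second part: every completely multiplicative `f` with values `±1` on
the odd numbers and `f n₁ = -1`, both signs, all large `k` (uniformly in `f`).
PROOF. Second part: FIN with `M = 2k` and `δ' = min δ 1`:
`(2k)^(1-δ') ≥ k^(1-δ') ≥ k^(1-δ)`. First part: `f n = (-1)^Ω(n)` (value in `ℤˣ`), `OM f` by
`cardFactors_mul` (odd numbers are not `0`), `f 3 = -1`, `e = -1`; for `k < k₀` the set has at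
least one element by `claim_all`, `c` = the minimum of `1` and the finitely many `k^-(1-δ)`,
`1 ≤ k < k₀` (or `c = 1/k₀`). -/
def ResStmt : Prop := ∀ δ : ℝ, 0 < δ →
  (∃ c : ℝ, 0 < c ∧ ∀ k : ℕ, 1 ≤ k → c * (k : ℝ) ^ (1 - δ) ≤
    (((Ioo ((2 * k - 1) ^ 2) ((2 * k + 1) ^ 2)).filter
      (fun n => Odd n ∧ Odd (ArithmeticFunction.cardFactors n))).card : ℝ)) ∧
  (∀ n1 : ℕ, Odd n1 → ∃ k0 : ℕ, ∀ k : ℕ, k0 ≤ k → ∀ f : ℕ → ℤˣ,
    (∀ a b : ℕ, Odd a → Odd b → f (a * b) = f a * f b) → f n1 = -1 → ∀ e : ℤˣ,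
    (k : ℝ) ^ (1 - δ) ≤
      (((Ioo ((2 * k - 1) ^ 2) ((2 * k + 1) ^ 2)).filter
        (fun n => Odd n ∧ f n = e)).card : ℝ))

end Pool.Agent.OPG
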